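import Pool.Agent.MP_9d4e03_lc.Mg.H37Game

set_option autoImplicit false

namespace Pool.Agent.Results.MP_9d4e03_lc.BelowTwo
open MeasureTheory Pool.Agent.TwoSrv

universe u

/-- On every metric space there is a randomized online 2-server algorithm (random seed uniform on
`[0,1)`, exactly one server moves, to the request) whose expected cost is at most `2 - 10^-8` times
the cost of any offline schedule, plus a constant depending on the initial configuration. -/
theorem result (M : Type u) [MetricSpace M] :
    ∃ A : M × M → ℝ → List M → M × M, ∀ init : M × M, ∃ B : ℝ,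
      (∀ ω, A init ω [] = init) ∧
      (∀ ω (l : List M) (r : M), A init ω (l ++ [r]) = (r, (A init ω l).2) ∨
        A init ω (l ++ [r]) = ((A init ω l).1, r)) ∧
      ∀ σ : List M,
        IntegrableOn (fun ω => ∑ i ∈ Finset.range σ.length,
          (dist (A init ω (σ.take i)).1 (A init ω (σ.take (i + 1))).1
            + dist (A init ω (σ.take i)).2 (A init ω (σ.take (i + 1))).2)) (Set.Ico (0 : ℝ) 1) ∧
        ∀ s : ℕ → M × M, s 0 = init →
          (∀ i < σ.length, σ[i]? = some (s (i + 1)).1 ∨ σ[i]? = some (s (i + 1)).2) →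
          (∫ ω in Set.Ico (0 : ℝ) 1, ∑ i ∈ Finset.range σ.length,
            (dist (A init ω (σ.take i)).1 (A init ω (σ.take (i + 1))).1
              + dist (A init ω (σ.take i)).2 (A init ω (σ.take (i + 1))).2))
          ≤ (2 - 1 / 10 ^ 8) * (∑ i ∈ Finset.range σ.length,
              (dist (s i).1 (s (i + 1)).1 + dist (s i).2 (s (i + 1)).2)) + B := by
  refine ⟨alg, fun x => ⟨(init0 x).Phi x, fun _ => rfl, alg_lazy x, fun σ => ?_⟩⟩
  have n : ∀ u, 0 ≤ cst (th u).1 u (init0 x, (th u).2) σ := fun u => cst_nonneg _ _ _ _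
  have m : Measurable fun u => cst (th u).1 u (init0 x, (th u).2) σ := by
    simpa [ENNReal.toReal_ofReal (n _)] using (alg_meas x σ).ennreal_toReal
  have v : 0 ≤ sm (fun a => V a (init0 x) σ) / 3 := by
    have := sm_nonneg (p := fun a => V a (init0 x) σ) fun a => V_nonneg a σ _
    positivity
  refine ⟨?_, fun s h0 h => ?_⟩
  · show IntegrableOn (fun u => cst (th u).1 u (init0 x, (th u).2) σ) _
    refine ⟨m.aestronglyMeasurable, ?_⟩
    rw [hasFiniteIntegral_iff_ofReal (Filter.Eventually.of_forall n), alg_int]
    exact ENNReal.ofReal_lt_top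
  · show ∫ u in Set.Ico (0 : ℝ) 1, cst (th u).1 u (init0 x, (th u).2) σ ≤ _
    rw [integral_eq_lintegral_of_nonneg_ae (Filter.Eventually.of_forall n)
      m.aestronglyMeasurable, alg_int, ENNReal.toReal_ofReal v]
    have k := compet σ (init0 x) s h
    rw [h0] at k
    exact k.trans (add_comm _ _).le

end Pool.Agent.Results.MP_9d4e03_lc.BelowTwo
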